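import Mathlib
import Pool.Agent.H75.Chain

/-! A Krylov transitive torsion-free abelian group whose square is not weakly transitive. -/

set_option autoImplicit false

namespace Pool.Agent.Results.MP_1abb56_al.KrylovCex

open Polynomial Filter Pool.Agent.H75.Chain

section defs
variable (G : Type) [AddCommGroup G]

variable {G} in
/-- The characteristic of `x`: its `p`-heights. -/
noncomputable def chi (x : G) (p : Nat.Primes) : ℕ∞ :=
  ⨆ (n : ℕ) (_ : ∃ y : G, x = (p : ℕ) ^ n • y), (n : ℕ∞)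

def Krylov : Prop := ∀ x y : G, chi x = chi y → ∃ f : G →+ G, f x = y

def WeaklyTransitive : Prop :=
  ∀ x y : G, (∃ φ ψ : G →+ G, φ x = y ∧ ψ y = x) → ∃ η : G ≃+ G, η x = y

end defs

theorem chi_dvd {G : Type} [AddCommGroup G] {x y : G} (h : chi x = chi y) (p : ℕ) (hp : p.Prime)
    (n : ℕ) (hx : ∃ z, x = p ^ n • z) : ∃ z, y = p ^ n • z := by
  by_contra hy
  have h1 : (n : ℕ∞) ≤ chi y ⟨p, hp⟩ := h ▸ le_iSup₂_of_le (f := fun (n : ℕ)
    (_ : ∃ y : G, x = p ^ n • y) => (n : ℕ∞)) n hx le_rfl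
  rcases n with _ | n
  · exact hy ⟨y, by simp⟩
  have h2 : chi y ⟨p, hp⟩ ≤ n := iSup₂_le fun k ⟨z, hz⟩ => by
    by_contra hk
    obtain ⟨j, rfl⟩ := Nat.exists_eq_add_of_le (show n + 1 ≤ k by simpa using hk)
    exact hy ⟨p ^ j • z, by rw [hz, pow_add, mul_smul]⟩
  exact absurd (ENat.natCast_le_natCast.1 (h1.trans h2)) (by omega)

variable (d : Data)

instance (n : ℕ) : Fact (d.p n).Prime := ⟨d.hp n⟩

/-- The norm at the `n`-th place. -/
def N (n : ℕ) (q : ℚ) : ℚ := padicNorm (d.p n) q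

theorem N_mul (n : ℕ) (a b : ℚ) : N d n (a * b) = N d n a * N d n b := padicNorm.mul a b
theorem N_nonneg (n : ℕ) (a : ℚ) : 0 ≤ N d n a := padicNorm.nonneg a
theorem N_add (n : ℕ) (a b : ℚ) : N d n (a + b) ≤ max (N d n a) (N d n b) :=
  padicNorm.nonarchimedean
theorem N_le {n : ℕ} {a : ℚ} (b : ℚ) (h : N d n a ≤ 1) : N d n (a * b) ≤ N d n b := by
  rw [N_mul]; exact mul_le_of_le_one_left (N_nonneg d n b) h

theorem ev_int (g : ℚ[X]) : ∀ᶠ n in atTop, N d n (g.eval (d.t n : ℚ)) ≤ 1 := by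
  induction g using Polynomial.induction_on' with
  | add f g hf hg =>
    filter_upwards [hf, hg] with n a b
    rw [eval_add]; exact (N_add d n _ _).trans (max_le a b)
  | monomial k a =>
    filter_upwards [eventually_gt_atTop a.den] with n hn
    have : N d n a ≤ 1 := by
      rw [← a.num_div_den, N, padicNorm.div, (padicNorm.nat_eq_one_iff _).2 fun h => by
        have := Nat.le_of_dvd a.pos h; have := d.mono.le_apply (x := n); omega, div_one]
      exact padicNorm.of_int _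
    rw [eval_monomial]
    exact (N_le d _ this).trans (by exact_mod_cast padicNorm.of_nat (d.t n ^ k))

theorem ev_ne {g : ℚ[X]} (h : g ≠ 0) : ∀ᶠ n in atTop, g.eval (d.t n : ℚ) ≠ 0 := by
  obtain ⟨b, hb⟩ := (finite_setOfPred_isRoot h).bddAbove
  obtain ⟨m, hm⟩ := exists_nat_gt b
  filter_upwards [eventually_gt_atTop m] with n hn e
  have h1 : (d.t n : ℚ) ≤ b := hb e
  have h2 : (m : ℚ) < d.t n := by exact_mod_cast hn.trans (d.ht n)
  linarith

theorem ev_zero (m : ℚ) {g : ℚ[X]} (h : ∀ᶠ n in atTop, d.l n = m → g.eval (d.t n : ℚ) = 0) :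
    g = 0 := by
  by_contra e
  obtain ⟨n, h1, h2, h3⟩ := ((d.hit m X (by simp)).and_eventually (h.and (ev_ne d e))).exists
  exact h3 (h2 h1.1)

theorem ev_dvd (m : ℚ) {g h : ℚ[X]} (e : ∀ᶠ n in atTop, d.l n = m →
    N d n (h.eval (d.t n : ℚ)) ≤ N d n (g.eval (d.t n : ℚ))) : g ∣ h := by
  by_cases g0 : g = 0
  · rw [g0, zero_dvd_iff]
    refine ev_zero d m (e.mono fun n a b => padicNorm.zero_of_padicNorm_eq_zero (p := d.p n) ?_)
    exact le_antisymm (by simpa [g0, N] using a b) (N_nonneg d n _)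
  obtain ⟨g', h', e1, e2, e3⟩ := extract_gcd g h
  set c := gcd g h
  have c0 : c ≠ 0 := fun z => g0 (by rw [e1, z, zero_mul])
  obtain ⟨u, v, huv⟩ := (gcd_isUnit_iff _ _).1 e3
  by_cases hg : g'.natDegree = 0
  · have : IsUnit g' := isUnit_iff_degree_eq_zero.2
      ((degree_eq_iff_natDegree_eq fun z => g0 (by rw [e1, z, mul_zero])).2 hg)
    rw [e1, e2]
    exact mul_dvd_mul_left _ this.dvd
  obtain ⟨n, ⟨h1, h2⟩, h3, h4, h5, h6⟩ := ((d.hit m g' (Nat.pos_of_ne_zero hg)).and_eventually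
    (e.and ((ev_ne d c0).and ((ev_int d u).and (ev_int d v))))).exists
  have h7 := h3 h1
  rw [e1, e2, eval_mul, eval_mul, N_mul, N_mul] at h7
  have h8 := le_of_mul_le_mul_left h7 ((N_nonneg d n _).lt_of_ne' (padicNorm.nonzero h4))
  have h9 := N_add d n (u.eval (d.t n : ℚ) * g'.eval (d.t n : ℚ))
    (v.eval (d.t n : ℚ) * h'.eval (d.t n : ℚ))
  rw [← eval_mul, ← eval_mul, ← eval_add, huv, eval_one, eval_mul, eval_mul] at h9
  have := h9.trans_lt (max_lt ((N_le d _ h5).trans_lt h2) (((N_le d _ h6).trans h8).trans_lt h2))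
  simp [N] at this

/-- Polynomial functions on a line with two nodes. -/
def Nod (F : ℚ[X]) : Prop := F.eval 0 = F.eval 1 ∧ F.eval (-1) = F.eval 2

/-- The ring whose additive group is the example. -/
def R : Subring (ℕ → ℚ) where
  carrier := {a | (∀ n, N d n (a n) ≤ 1) ∧ ∃ F, Nod F ∧ ∀ᶠ n in atTop, a n = F.eval (d.t n : ℚ)}
  mul_mem' := by
    rintro a b ⟨a1, F, f, a2⟩ ⟨b1, G, g, b2⟩
    exact ⟨fun n => (N_le d _ (a1 n)).trans (b1 n), F * G, by simp [Nod, f.1, f.2, g.1, g.2],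
      (a2.and b2).mono fun n e => by simp [e.1, e.2]⟩
  add_mem' := by
    rintro a b ⟨a1, F, f, a2⟩ ⟨b1, G, g, b2⟩
    exact ⟨fun n => (N_add d n _ _).trans (max_le (a1 n) (b1 n)), F + G,
      by simp [Nod, f.1, f.2, g.1, g.2], (a2.and b2).mono fun n e => by simp [e.1, e.2]⟩
  one_mem' := ⟨fun n => by simp [N], 1, by simp [Nod], by simp⟩
  zero_mem' := ⟨fun n => by simp [N], 0, by simp [Nod], by simp⟩
  neg_mem' := by
    rintro a ⟨a1, F, f, a2⟩
    exact ⟨fun n => (padicNorm.neg _).trans_le (a1 n), -F, by simp [Nod, f.1, f.2],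
      a2.mono fun n e => by simp [e]⟩

theorem N_pow (n k : ℕ) : N d n ((d.p n : ℚ) ^ k) = (d.p n : ℚ) ^ (-k : ℤ) := by
  induction k with
  | zero => simp [N]
  | succ k ih =>
    rw [pow_succ, N_mul, ih, N, padicNorm.padicNorm_p_of_prime, Nat.cast_succ, neg_add,
      zpow_add₀ (by exact_mod_cast (d.hp n).ne_zero), zpow_neg_one]

theorem dvd_iff (a : R d) (q : ℕ) (hq : q.Prime) (k : ℕ) : (∃ z, a = q ^ k • z) ↔
    ∀ n, d.p n = q → N d n (a.1 n) ≤ (q : ℚ) ^ (-k : ℤ) := by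
  have q0 : (q : ℚ) ^ k ≠ 0 := pow_ne_zero _ (by exact_mod_cast hq.ne_zero)
  constructor
  · rintro ⟨z, rfl⟩ n rfl
    rw [← N_pow]
    simpa [mul_comm] using N_le d ((d.p n : ℚ) ^ k) (z.2.1 n)
  · intro h
    obtain ⟨a1, F, f, a2⟩ := a.2
    refine ⟨⟨fun n => a.1 n / q ^ k, fun n => ?_, F * C ((q : ℚ) ^ k)⁻¹,
      by simp [Nod, f.1, f.2], a2.mono fun n e => by simp [e, div_eq_mul_inv]⟩, ?_⟩
    · rw [N, padicNorm.div, div_le_one ((padicNorm.nonneg _).lt_of_ne' (padicNorm.nonzero q0))]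
      by_cases e : d.p n = q
      · have := h n e
        rwa [← e, ← N_pow, e] at this
      · refine (a1 n).trans (Eq.ge ?_)
        exact_mod_cast (padicNorm.nat_eq_one_iff (q ^ k)).2 fun z =>
          e ((Nat.prime_dvd_prime_iff_eq (d.hp n) hq).1 ((d.hp n).dvd_of_dvd_pow z))
    · ext n
      simp [mul_div_cancel₀ _ q0]

theorem mult (f : R d →+ R d) (a : R d) : f a = f 1 * a := by
  have z : ∀ (b : R d) (n : ℕ), b.1 n = 0 → (f b).1 n = 0 := fun b n h => by
    have p1 : (1 : ℚ) < d.p n := by exact_mod_cast (d.hp n).one_lt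
    by_contra x0
    obtain ⟨j, hj⟩ := padicNorm.values_discrete (p := d.p n) x0
    obtain ⟨w, hw⟩ := (dvd_iff d b _ (d.hp n) (j.toNat + 1)).2 fun m e => by
      rw [d.mono.injective e, h]; simp only [N, padicNorm.zero]; positivity
    have := (dvd_iff d (f b) _ (d.hp n) (j.toNat + 1)).1 ⟨f w, by rw [hw, map_nsmul]⟩ n rfl
    rw [N, hj, zpow_le_zpow_iff_right₀ p1] at this
    omega
  ext n
  have := z ((a.1 n).den • a - (a.1 n).num • 1) n (by simp [Rat.den_mul_eq_num])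
  rw [map_sub, map_nsmul, map_zsmul] at this
  have e : ((a.1 n).den : ℚ) * (f a).1 n = (a.1 n).num * (f 1).1 n := by
    simpa [sub_eq_zero] using this
  rw [← Rat.den_mul_eq_num, mul_assoc, mul_right_inj' (by simp)] at e
  simp [e, mul_comm]

theorem le_of_chi (a b : R d) (h : chi a = chi b) (n : ℕ) : N d n (b.1 n) ≤ N d n (a.1 n) := by
  have p1 : (1 : ℚ) < d.p n := by exact_mod_cast (d.hp n).one_lt
  by_contra! lt
  have x0 : b.1 n ≠ 0 := fun z => by
    simp only [z, N, padicNorm.zero] at lt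
    exact lt.not_ge (padicNorm.nonneg _)
  obtain ⟨j, hj⟩ := padicNorm.values_discrete (p := d.p n) x0
  have j0 : 0 ≤ j := by
    have := b.2.1 n
    rw [N, hj, zpow_le_one_iff_right₀ p1] at this
    omega
  lift j to ℕ using j0
  have := (dvd_iff d b _ (d.hp n) (j + 1)).1 (chi_dvd h _ (d.hp n) _
    ((dvd_iff d a _ (d.hp n) (j + 1)).2 fun m e => by
      rw [d.mono.injective e]
      by_cases y0 : a.1 n = 0
      · simp only [y0, N, padicNorm.zero]; positivity
      obtain ⟨i, hi⟩ := padicNorm.values_discrete (p := d.p n) y0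
      rw [N, N, hj, hi, zpow_lt_zpow_iff_right₀ p1] at lt
      rw [N, hi, zpow_le_zpow_iff_right₀ p1]
      omega)) n rfl
  rw [N, hj, zpow_le_zpow_iff_right₀ p1] at this
  omega

theorem krylov : Krylov (R d) := fun a b h => by
  obtain ⟨-, F, -, a2⟩ := a.2
  obtain ⟨-, G, -, b2⟩ := b.2
  have h1 : F ∣ G := ev_dvd d 0 ((a2.and b2).mono fun n e _ => e.1 ▸ e.2 ▸ le_of_chi d a b h n)
  have h2 : G ∣ F := ev_dvd d 0 ((a2.and b2).mono fun n e _ => e.1 ▸ e.2 ▸ le_of_chi d b a h.symm n)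
  obtain ⟨u, hu⟩ := associated_of_dvd_dvd h1 h2
  obtain ⟨c, -, hc⟩ := isUnit_iff.1 u.isUnit
  have : ∀ n, ∃ v, N d n v ≤ 1 ∧ b.1 n = v * a.1 n ∧
      (N d n c ≤ 1 ∧ b.1 n = c * a.1 n → v = c) := fun n => by
    by_cases z : N d n c ≤ 1 ∧ b.1 n = c * a.1 n
    · exact ⟨c, z.1, z.2, fun _ => rfl⟩
    have e := le_of_chi d a b h n
    by_cases x0 : a.1 n = 0
    · refine ⟨0, by simp [N], (padicNorm.zero_of_padicNorm_eq_zero (p := d.p n) ?_).trans
        (zero_mul _).symm, fun t => absurd t z⟩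
      exact le_antisymm (by simpa [x0, N] using e) (N_nonneg d n _)
    · exact ⟨b.1 n / a.1 n, by
        rwa [N, padicNorm.div, div_le_one ((padicNorm.nonneg _).lt_of_ne' (padicNorm.nonzero x0))],
        by field_simp, fun t => absurd t z⟩
  choose v h3 h4 h5 using this
  refine ⟨AddMonoidHom.mulLeft (⟨v, h3, C c, by simp [Nod], ?_⟩ : R d),
    (Subtype.ext (_root_.funext h4)).symm⟩
  filter_upwards [a2, b2, ev_int d (C c)] with n x y z
  rw [eval_C] at z ⊢
  exact h5 n ⟨z, by rw [x, y, ← hu, ← hc]; simp [mul_comm]⟩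

/-- The element given by an integer polynomial times the conductor. -/
def el (g : ℤ → ℤ) (F : ℚ[X]) (h : ∀ t : ℕ, F.eval (t : ℚ) = g t) (f : Nod F) : R d :=
  ⟨fun n => g (d.t n), fun _ => padicNorm.of_int _, F, f, by simp [h]⟩

noncomputable def eP : R d := el d (fun t => (t ^ 2 - t) * (t ^ 2 - t - 2)) ((X ^ 2 - X) * (X ^ 2 - X - 2))
  (by simp) (by norm_num [Nod])
noncomputable def eQ : R d := el d (fun t => t * ((t ^ 2 - t) * (t ^ 2 - t - 2)))
  (X * ((X ^ 2 - X) * (X ^ 2 - X - 2))) (by simp) (by norm_num [Nod])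
noncomputable def eK : R d := el d (fun t => 1 - (t ^ 2 - t)) (1 - (X ^ 2 - X)) (by simp) (by norm_num [Nod])

theorem mat (f : R d × R d →+ R d × R d) (a b : R d) : f (a, b) =
    ((f (1, 0)).1 * a + (f (0, 1)).1 * b, (f (1, 0)).2 * a + (f (0, 1)).2 * b) := by
  rw [show (a, b) = (a, 0) + (0, b) by simp, map_add]
  exact Prod.ext
    (congrArg₂ (· + ·) (mult d ((AddMonoidHom.fst _ _).comp (f.comp (AddMonoidHom.inl _ _))) a)
      (mult d ((AddMonoidHom.fst _ _).comp (f.comp (AddMonoidHom.inr _ _))) b))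
    (congrArg₂ (· + ·) (mult d ((AddMonoidHom.snd _ _).comp (f.comp (AddMonoidHom.inl _ _))) a)
      (mult d ((AddMonoidHom.snd _ _).comp (f.comp (AddMonoidHom.inr _ _))) b))

theorem not_weak : ¬WeaklyTransitive (R d × R d) := fun h => by
  obtain ⟨f, hf⟩ := h (eP d, eQ d) (eP d, eK d * eQ d)
    ⟨(AddMonoidHom.id _).prodMap (AddMonoidHom.mulLeft (eK d)), (AddMonoidHom.fst _ _).prod
      ((AddMonoidHom.mulLeft (-eQ d)).coprod (AddMonoidHom.mulLeft (eK d))), rfl, by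
        ext n <;> simp [eP, eQ, eK, el]
        ring⟩
  obtain ⟨z, e1⟩ := f.surjective (1, 0)
  obtain ⟨w, e2⟩ := f.surjective (0, 1)
  have e0 := (mat d f.toAddMonoidHom _ _).symm.trans hf
  replace e1 := (mat d f.toAddMonoidHom z.1 z.2).symm.trans e1
  replace e2 := (mat d f.toAddMonoidHom w.1 w.2).symm.trans e2
  simp only [Prod.mk.injEq] at e0 e1 e2
  generalize f.toAddMonoidHom (1, 0) = x at *
  generalize f.toAddMonoidHom (0, 1) = y at *
  have e3 : (x.1 * y.2 - x.2 * y.1) * (z.1 * w.2 - z.2 * w.1) = 1 := by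
    linear_combination (x.2 * w.1 + y.2 * w.2) * e1.1 + e2.2 - (x.1 * w.1 + y.1 * w.2) * e1.2
  obtain ⟨-, A, hA, a⟩ := x.1.2
  obtain ⟨-, B, hB, b⟩ := y.1.2
  obtain ⟨-, E, hE, c⟩ := x.2.2
  obtain ⟨-, D, hD, e⟩ := y.2.2
  obtain ⟨-, V, -, v⟩ := (z.1 * w.2 - z.2 * w.1).2
  have P0 : ((X ^ 2 - X) * (X ^ 2 - X - 2) : ℚ[X]) ≠ 0 := fun z => by
    have := congrArg (eval 3) z
    norm_num at this
  have r1 : (A + B * X - 1) * ((X ^ 2 - X) * (X ^ 2 - X - 2)) = 0 :=
    ev_zero d 0 ((a.and b).mono fun n i _ => by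
      have := congrArg (fun x : R d => x.1 n) e0.1
      simp [i.1, i.2, eP, eQ, el, -mul_eq_zero] at this ⊢
      linear_combination this)
  have r2 : (E + D * X - (1 - (X ^ 2 - X)) * X) * ((X ^ 2 - X) * (X ^ 2 - X - 2)) = 0 :=
    ev_zero d 0 ((c.and e).mono fun n i _ => by
      have := congrArg (fun x : R d => x.1 n) e0.2
      simp [i.1, i.2, eP, eQ, eK, el, -mul_eq_zero] at this ⊢
      linear_combination this)
  have r3 : (A * D - E * B) * V - 1 = 0 :=
    ev_zero d 0 ((a.and (b.and (c.and (e.and v)))).mono fun n i _ => by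
      have := congrArg (fun x : R d => x.1 n) e3
      rw [Subring.coe_mul, Pi.mul_apply, i.2.2.2.2] at this
      simpa [i.1, i.2.1, i.2.2.1, i.2.2.2.1, sub_eq_zero] using this)
  obtain ⟨k, -, hk⟩ := isUnit_iff.1 (IsUnit.of_mul_eq_one _ (sub_eq_zero.1 r3))
  replace r1 := fun t : ℚ => congrArg (eval t) ((mul_eq_zero.1 r1).resolve_right P0)
  replace r2 := fun t : ℚ => congrArg (eval t) ((mul_eq_zero.1 r2).resolve_right P0)
  replace hk := fun t : ℚ => congrArg (eval t) hk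
  have := r1 0; have := r1 1; have := r1 (-1); have := r1 2
  have := r2 0; have := r2 1; have := r2 (-1); have := r2 2
  have := hk 0; have := hk 2
  simp only [Nod, eval_sub, eval_add, eval_mul, eval_X, eval_one, eval_pow, eval_zero,
    eval_C] at *
  grind

theorem result : ∃ (G : Type) (_ : AddCommGroup G),
    IsAddTorsionFree G ∧ Krylov G ∧ ¬WeaklyTransitive (G × G) := by
  obtain ⟨d⟩ := data
  exact ⟨R d, inferInstance, Function.Injective.isAddTorsionFree (R d).subtype.toAddMonoidHom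
    Subtype.val_injective, krylov d, not_weak d⟩

end Pool.Agent.Results.MP_1abb56_al.KrylovCex
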