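import Mathlib

/-! A weakly transitive torsion-free abelian group whose square is not weakly transitive. -/

set_option autoImplicit false

namespace Pool.Agent.Results.MP_1abb56_al.SquareCex

/-- Weak transitivity. -/
def WeaklyTransitive (G : Type) [AddCommGroup G] : Prop :=
  ∀ x y : G, (∃ φ ψ : G →+ G, φ x = y ∧ ψ y = x) → ∃ η : G ≃+ G, η x = y

/-- `a` lies in `Z[1/p]` and has residue `r` modulo `5`. -/
def P (p : ℕ) (a : ℚ) (r : ZMod 5) : Prop := ∃ (n : ℕ) (s : ℤ), (p : ℚ) ^ n * a = s ∧ (s : ZMod 5) = r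

section
variable {p : ℕ} (hp : (p : ZMod 5) = 1) {a b : ℚ} {r t : ZMod 5}
include hp

theorem P.add (h : P p a r) (k : P p b t) : P p (a + b) (r + t) := by
  obtain ⟨n, s, h1, rfl⟩ := h
  obtain ⟨m, u, k1, rfl⟩ := k
  exact ⟨n + m, p ^ m * s + p ^ n * u, by push_cast; rw [← h1, ← k1]; ring, by simp [hp]⟩

omit hp in
theorem P.mul (h : P p a r) (k : P p b t) : P p (a * b) (r * t) := by
  obtain ⟨n, s, h1, rfl⟩ := h
  obtain ⟨m, u, k1, rfl⟩ := k
  exact ⟨n + m, s * u, by push_cast; rw [← h1, ← k1]; ring, by simp⟩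

omit hp in
theorem P.int (s : ℤ) : P p s s := ⟨0, s, by simp, rfl⟩

theorem P.uniq (h : P p a r) (k : P p a t) : r = t := by
  obtain ⟨n, s, h1, rfl⟩ := h
  obtain ⟨m, u, k1, rfl⟩ := k
  have : (p : ℤ) ^ m * s = p ^ n * u := by
    have : (p : ℚ) ^ m * s = p ^ n * u := by rw [← h1, ← k1]; ring
    exact_mod_cast this
  simpa [hp] using congrArg (Int.cast : ℤ → ZMod 5) this

theorem P.unit (pp : p.Prime) (h : P p a r) (k : P p b t) (e : a * b = 1) : r = 1 ∨ r = -1 := by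
  obtain ⟨n, s, h1, rfl⟩ := h
  obtain ⟨m, u, k1, rfl⟩ := k
  have : s * u = (p : ℤ) ^ (n + m) := by
    have : (s : ℚ) * u = p ^ (n + m) := by
      rw [← h1, ← k1]; linear_combination (p : ℚ) ^ (n + m) * e
    exact_mod_cast this
  have h2 : s.natAbs ∣ p ^ (n + m) := by
    have := Int.natAbs_dvd_natAbs.2 (Dvd.intro _ this)
    simpa [Int.natAbs_pow] using this
  obtain ⟨j, -, hj⟩ := (Nat.dvd_prime_pow pp).1 h2
  rcases Int.natAbs_eq s with h | h <;> rw [h, hj] <;> simp [hp]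

end

theorem h11 : ((11 : ℕ) : ZMod 5) = 1 := by decide
theorem h31 : ((31 : ℕ) : ZMod 5) = 1 := by decide

def Cp (a b : ℚ) : Prop := ∃ r, P 11 a r ∧ P 31 b r

def G : AddSubgroup (ℚ × ℚ) where
  carrier := {v | Cp (5 * v.1) (5 * v.2)}
  add_mem' := fun ⟨r, h1, h2⟩ ⟨t, k1, k2⟩ =>
    ⟨r + t, by simpa [mul_add] using h1.add h11 k1, by simpa [mul_add] using h2.add h31 k2⟩
  zero_mem' := ⟨0, by simpa using P.int (p := 11) 0, by simpa using P.int (p := 31) 0⟩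
  neg_mem' := fun ⟨r, h1, h2⟩ => ⟨-r, by simpa using (P.int (-1)).mul h1,
    by simpa using (P.int (-1)).mul h2⟩

def dg {a b : ℚ} (h : Cp a b) : G →+ G where
  toFun v := ⟨(a * v.1.1, b * v.1.2), by
    obtain ⟨r, h1, h2⟩ := h
    obtain ⟨t, k1, k2⟩ := v.2
    exact ⟨r * t, by simpa [mul_left_comm] using h1.mul k1, by simpa [mul_left_comm] using h2.mul k2⟩⟩
  map_zero' := by ext <;> simp
  map_add' v w := by ext <;> simp [mul_add]

def dgE {a b a' b' : ℚ} (h : Cp a b) (h' : Cp a' b') (e : a * a' = 1) (f : b * b' = 1) : G ≃+ G :=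
  { dg h with
    invFun := dg h'
    left_inv := fun v => by
      ext
      · change a' * (a * v.1.1) = v.1.1; linear_combination v.1.1 * e
      · change b' * (b * v.1.2) = v.1.2; linear_combination v.1.2 * f
    right_inv := fun v => by
      ext
      · change a * (a' * v.1.1) = v.1.1; linear_combination v.1.1 * e
      · change b * (b' * v.1.2) = v.1.2; linear_combination v.1.2 * f }

def u (k : ℕ) : G := ⟨(1 / 11 ^ k, 0), 0, ⟨k, 5, by simp; field_simp, by decide⟩, by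
  simpa using P.int (p := 31) 0⟩
def w (k : ℕ) : G := ⟨(0, 1 / 31 ^ k), 0, by simpa using P.int (p := 11) 0,
  ⟨k, 5, by simp; field_simp, by decide⟩⟩
def d : G := ⟨(1 / 5, 1 / 5), 1, by simpa using P.int (p := 11) 1, by simpa using P.int (p := 31) 1⟩

theorem zero_of_div {p q : ℕ} (hpq : Nat.Coprime q p) (hq : 1 < q) (hp : p ≠ 0) (f : ℕ → ℚ)
    (h : ∀ k, ∃ r, P p (f k) r) (e : ∀ k, f 0 = q ^ k * f k) : f 0 = 0 := by
  obtain ⟨_, n, s, h0, -⟩ := h 0
  have : s = 0 := Int.eq_zero_of_dvd_of_natAbs_lt_natAbs (d := (q : ℤ) ^ s.natAbs) (by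
    obtain ⟨_, m, t, h1, -⟩ := h s.natAbs
    have h2 : (p : ℤ) ^ m * s = q ^ s.natAbs * (p ^ n * t) := by
      have : (p : ℚ) ^ m * s = q ^ s.natAbs * (p ^ n * t) := by
        rw [← h1]; conv_lhs => rw [← h0, e s.natAbs]
        ring
      exact_mod_cast this
    exact (Nat.isCoprime_iff_coprime.2 hpq).pow.dvd_of_dvd_mul_left (Dvd.intro _ h2.symm))
    (by simpa [Int.natAbs_pow] using Nat.lt_pow_self hq)
  simpa [this, hp] using h0

theorem end_diag (φ : G →+ G) : ∃ a b, Cp a b ∧ ∀ v : G, (φ v).1 = (a * v.1.1, b * v.1.2) := by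
  have hu : (φ (u 0)).1.2 = 0 := by
    have := zero_of_div (p := 31) (q := 11) (by norm_num) (by norm_num) (by norm_num)
      (fun k => 5 * (φ (u k)).1.2) (fun k => (φ (u k)).2.imp fun _ h => h.2) fun k => by
        have : u 0 = (11 ^ k : ℕ) • u k := by ext <;> simp [u]
        rw [this, map_nsmul]; simp; ring
    simpa using this
  have hw : (φ (w 0)).1.1 = 0 := by
    have := zero_of_div (p := 11) (q := 31) (by norm_num) (by norm_num) (by norm_num)
      (fun k => 5 * (φ (w k)).1.1) (fun k => (φ (w k)).2.imp fun _ h => h.1) fun k => by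
        have : w 0 = (31 ^ k : ℕ) • w k := by ext <;> simp [w]
        rw [this, map_nsmul]; simp; ring
    simpa using this
  have key : ∀ v : G, (φ v).1 = ((φ (u 0)).1.1 * v.1.1, (φ (w 0)).1.2 * v.1.2) := fun v => by
    obtain ⟨_, ⟨n, s, h1, -⟩, m, t, h2, -⟩ := v.2
    have e : (5 * 11 ^ n * 31 ^ m : ℤ) • v = (31 ^ m * s : ℤ) • u 0 + (11 ^ n * t : ℤ) • w 0 := by
      ext <;> simp [u, w, ← h1, ← h2] <;> ring
    have e2 := congrArg (fun z => (φ z).1) e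
    simp only [map_zsmul, map_add, AddSubgroup.coe_add, AddSubgroup.coe_zsmul] at e2
    have e3 := congrArg Prod.fst e2
    have e4 := congrArg Prod.snd e2
    simp [hu, hw, ← h1, ← h2] at e3 e4
    have hn : (5 * 11 ^ n * 31 ^ m : ℚ) ≠ 0 := by positivity
    ext
    · exact mul_left_cancel₀ hn (by linear_combination e3)
    · exact mul_left_cancel₀ hn (by linear_combination e4)
  refine ⟨_, _, ?_, key⟩
  have := (φ d).2
  rw [key d] at this
  change Cp (5 * (_ * (1 / 5))) (5 * (_ * (1 / 5))) at this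
  convert this using 1 <;> ring

theorem sgn {r : ZMod 5} (h : r = 1 ∨ r = -1) (p : ℕ) : ∃ e : ℚ, e * e = 1 ∧ P p e r := by
  rcases h with rfl | rfl
  · exact ⟨1, by simp, by simpa using P.int (p := p) 1⟩
  · exact ⟨-1, by simp, by simpa using P.int (p := p) (-1)⟩

theorem wt : WeaklyTransitive G := by
  rintro x y ⟨φ, ψ, h1, h2⟩
  obtain ⟨a, b, ⟨r, ha, hb⟩, hφ⟩ := end_diag φ
  obtain ⟨a', b', ⟨r', ha', hb'⟩, hψ⟩ := end_diag ψ
  have e1 := hφ x
  have e2 := hψ y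
  rw [h1] at e1
  rw [h2, e1] at e2
  have f1 : x.1.1 ≠ 0 → a * a' = 1 := fun h =>
    mul_right_cancel₀ h (by linear_combination -congrArg Prod.fst e2)
  have f2 : x.1.2 ≠ 0 → b * b' = 1 := fun h =>
    mul_right_cancel₀ h (by linear_combination -congrArg Prod.snd e2)
  have rr : ∀ s s' : ZMod 5, s = 1 ∨ s = -1 → s * s' = 1 → s' = s := by decide
  by_cases k1 : x.1.1 = 0 <;> by_cases k2 : x.1.2 = 0
  · exact ⟨.refl _, by ext <;> simp [e1, k1, k2]⟩
  · have hr := hb.unit h31 (by norm_num) hb' (f2 k2)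
    obtain ⟨e, he, hP⟩ := sgn hr 11
    obtain rfl := rr _ _ hr ((hb.mul hb').uniq h31 (by simpa [f2 k2] using P.int (p := 31) 1))
    exact ⟨dgE ⟨_, hP, hb⟩ ⟨_, hP, hb'⟩ he (f2 k2), by ext <;> simp [e1, k1, dgE, dg]⟩
  · have hr := ha.unit h11 (by norm_num) ha' (f1 k1)
    obtain ⟨e, he, hP⟩ := sgn hr 31
    obtain rfl := rr _ _ hr ((ha.mul ha').uniq h11 (by simpa [f1 k1] using P.int (p := 11) 1))
    exact ⟨dgE ⟨_, ha, hP⟩ ⟨_, ha', hP⟩ (f1 k1) he, by ext <;> simp [e1, k2, dgE, dg]⟩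
  · exact ⟨dgE ⟨_, ha, hb⟩ ⟨_, ha', hb'⟩ (f1 k1) (f2 k2), by ext <;> simp [e1, dgE, dg]⟩

theorem end_sq (η : G × G →+ G × G) : ∃ a b : Fin 4 → ℚ, (∀ i, Cp (a i) (b i)) ∧ ∀ v : G × G,
    (η v).1.1 = (a 0 * v.1.1.1 + a 1 * v.2.1.1, b 0 * v.1.1.2 + b 1 * v.2.1.2) ∧
      (η v).2.1 = (a 2 * v.1.1.1 + a 3 * v.2.1.1, b 2 * v.1.1.2 + b 3 * v.2.1.2) := by
  obtain ⟨a0, b0, c0, h0⟩ := end_diag ((AddMonoidHom.fst G G).comp (η.comp (.inl G G)))
  obtain ⟨a1, b1, c1, h1⟩ := end_diag ((AddMonoidHom.fst G G).comp (η.comp (.inr G G)))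
  obtain ⟨a2, b2, c2, h2⟩ := end_diag ((AddMonoidHom.snd G G).comp (η.comp (.inl G G)))
  obtain ⟨a3, b3, c3, h3⟩ := end_diag ((AddMonoidHom.snd G G).comp (η.comp (.inr G G)))
  refine ⟨![a0, a1, a2, a3], ![b0, b1, b2, b3], fun i => by fin_cases i <;> assumption, fun v => ?_⟩
  have : η v = η (v.1, 0) + η (0, v.2) := by rw [← map_add]; simp
  simp at h0 h1 h2 h3
  simp [this, h0, h1, h2, h3]

theorem cp (s t : ℤ) (h : (s : ZMod 5) = t) : Cp s t := ⟨s, P.int s, h ▸ P.int t⟩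

theorem result : ∃ (G : Type) (_ : AddCommGroup G), IsAddTorsionFree G ∧
    WeaklyTransitive G ∧ ¬WeaklyTransitive (G × G) := by
  refine ⟨G, inferInstance, inferInstance, wt, fun h => ?_⟩
  obtain ⟨η, hη⟩ := h (u 0, w 0) (2 • u 0, 5 • u 0 + w 0)
    ⟨((2 : ℕ) • AddMonoidHom.fst G G).prod ((5 : ℕ) • AddMonoidHom.fst G G + .snd G G),
      ((dg (cp 13 3 (by decide))).coprod (dg (cp (-5) 0 (by decide)))).prod
        ((dg (cp 10 0 (by decide))).coprod (dg (cp (-4) 1 (by decide)))), by simp, by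
      ext <;> simp [dg, u, w] <;> norm_num⟩
  obtain ⟨a, b, c, k⟩ := end_sq η.toAddMonoidHom
  obtain ⟨a', b', c', k'⟩ := end_sq η.symm.toAddMonoidHom
  have e1 := k (u 0, w 0)
  have e2 := k (η.symm (u 0, 0))
  have e3 := k (η.symm (0, u 0))
  have e4 := k' (u 0, 0)
  have e5 := k' (0, u 0)
  simp only [AddEquiv.toAddMonoidHom_eq_coe, AddMonoidHom.coe_coe, hη, AddEquiv.apply_symm_apply]
    at e1 e2 e3 e4 e5
  rw [e4.1, e4.2] at e2
  rw [e5.1, e5.2] at e3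
  simp [u, w, Prod.ext_iff] at e1 e2 e3
  obtain ⟨r1, p1, -⟩ := c 1
  obtain ⟨r3, p3, q3⟩ := c 3
  obtain ⟨s0, t0, -⟩ := c' 0
  obtain ⟨s1, t1, -⟩ := c' 1
  obtain ⟨s2, t2, -⟩ := c' 2
  obtain ⟨s3, t3, -⟩ := c' 3
  obtain rfl : r3 = 1 := q3.uniq h31 (by rw [← e1.2.2]; simpa using P.int (p := 31) 1)
  have := (((P.int 2).mul p3).add h11 ((P.int (-5)).mul p1)).unit h11 (by norm_num)
    ((t0.mul t3).add h11 ((P.int (-1)).mul (t1.mul t2))) (by
      rw [← e1.1.1, ← e1.2.1] at e2 e3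
      push_cast
      linear_combination (-(5 * a' 1 + a 3 * a' 3)) * e2.1 + (2 * a' 1 + a 1 * a' 3) * e2.2 -
        e3.2)
  revert this
  generalize r1 = r
  revert r
  decide

end Pool.Agent.Results.MP_1abb56_al.SquareCex
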